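import Pool.Agent.MP_2b113a_an.H58.Rigid3A

/-!
The stable Bernstein theorem in three frames, `C3.RigidStmt`.
-/

namespace Pool.Agent.MP_2b113a_an.H58

open MeasureTheory ProbabilityTheory Filter Topology
open scoped ENNReal NNReal
open Pool.Agent.MP_2b113a_an.C3

lemma mom3 (a m : T3) (v : ℝ≥0) :
    ∫⁻ w, ENNReal.ofReal (nsq (a + w)) ∂G3 m v v v = ENNReal.ofReal (nsq (a + m) + 3 * v) := by
  have ha : Measurable fun x : ℝ => ENNReal.ofReal ((a.1 + x) ^ 2) := by fun_prop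
  have hb : Measurable fun p : ℝ × ℝ => ENNReal.ofReal ((a.2.1 + p.1) ^ 2 + (a.2.2 + p.2) ^ 2) := by
    fun_prop
  have e : ∀ w : T3, ENNReal.ofReal (nsq (a + w)) = ENNReal.ofReal ((a.1 + w.1) ^ 2) +
      ENNReal.ofReal ((a.2.1 + w.2.1) ^ 2 + (a.2.2 + w.2.2) ^ 2) := fun w => by
    rw [← ENNReal.ofReal_add (sq_nonneg _) (by positivity)]
    simp only [nsq, Prod.fst_add, Prod.snd_add, add_assoc]
  simp only [e]
  rw [lintegral_add_left (show Measurable fun w : T3 => ENNReal.ofReal ((a.1 + w.1) ^ 2) from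
    ha.comp measurable_fst)]
  have h1 : ∫⁻ w : T3, ENNReal.ofReal ((a.1 + w.1) ^ 2) ∂G3 m v v v =
      ENNReal.ofReal ((a.1 + m.1) ^ 2 + v) := by
    rw [← H50.mom, ← lintegral_map ha measurable_fst]
    simp [G3]
  have h2 : ∫⁻ w : T3, ENNReal.ofReal ((a.2.1 + w.2.1) ^ 2 + (a.2.2 + w.2.2) ^ 2) ∂G3 m v v v =
      ENNReal.ofReal ((a.2.1 + m.2.1) ^ 2 + (a.2.2 + m.2.2) ^ 2 + 2 * v) := by
    rw [← H50.mom2, ← lintegral_map hb measurable_snd]
    simp [G3, H83.G2]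
  rw [h1, h2, ← ENNReal.ofReal_add (by positivity) (by positivity)]
  refine congrArg ENNReal.ofReal ?_
  simp only [nsq, Prod.fst_add, Prod.snd_add]
  ring

lemma scheffe (Qn : ℕ → T3 → ℝ≥0∞) (Q : T3 → ℝ≥0∞) (hn : ∀ n, Measurable (Qn n))
    (hQ : Measurable Q) (h1n : ∀ n, ∫⁻ w, Qn n w = 1) (h1 : ∫⁻ w, Q w = 1)
    (hfin : ∀ w, Q w ≠ ∞) (lim : ∀ w, Tendsto (fun n => Qn n w) atTop (𝓝 (Q w))) :
    Tendsto (fun n => ∫⁻ w, (Qn n w - Q w)) atTop (𝓝 0) := by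
  have e : ∀ n, ∫⁻ w, (Qn n w - Q w) = ∫⁻ w, (Q w - Qn n w) := by
    intro n
    have h2 : ∫⁻ w, (Q w + (Qn n w - Q w)) = ∫⁻ w, (Qn n w + (Q w - Qn n w)) := by
      refine lintegral_congr fun w => ?_
      rw [add_tsub_eq_max, add_tsub_eq_max, max_comm]
    rw [lintegral_add_left hQ, lintegral_add_left (hn n), h1, h1n] at h2
    exact (ENNReal.add_right_inj ENNReal.one_ne_top).1 h2
  simp only [e]
  have := tendsto_lintegral_of_dominated_convergence (μ := (volume : Measure T3))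
    (F := fun n w => Q w - Qn n w) (f := fun _ => 0) Q (fun n => hQ.sub (hn n))
    (fun n => Eventually.of_forall fun w => tsub_le_self) (by rw [h1]; simp)
    (Eventually.of_forall fun w => by
      have := ENNReal.Tendsto.sub (tendsto_const_nhds (x := Q w)) (lim w) (Or.inl (hfin w))
      simpa using this)
  simpa using this

lemma tight (M₀ : ℝ≥0) (S : Set (ProbabilityMeasure T3))
    (hS : ∀ P ∈ S, ∫⁻ u, ENNReal.ofReal (nsq u) ∂(P : Measure T3) ≤ M₀) :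
    IsTightMeasureSet {((μ : ProbabilityMeasure T3) : Measure T3) | μ ∈ S} := by
  rw [isTightMeasureSet_iff_exists_isCompact_measure_compl_le]
  intro ε hε
  obtain ⟨n, hn⟩ : ∃ n : ℕ, (M₀ : ℝ≥0∞) / (n + 1 : ℕ) ≤ ε := by
    have h1 : Tendsto (fun n : ℕ => (M₀ : ℝ≥0∞) / (n + 1 : ℕ)) atTop (𝓝 0) := by
      have := ENNReal.Tendsto.const_mul (a := (M₀ : ℝ≥0∞))
        (ENNReal.tendsto_inv_nat_nhds_zero.comp (tendsto_add_atTop_nat 1))
        (Or.inr ENNReal.coe_ne_top)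
      simpa [div_eq_mul_inv] using this
    exact (h1.eventually (ge_mem_nhds hε)).exists
  refine ⟨Metric.closedBall 0 (n + 1 : ℕ), isCompact_closedBall _ _, ?_⟩
  rintro _ ⟨P, hP, rfl⟩
  have hm : Measurable fun u : T3 => ENNReal.ofReal (nsq u) := by fun_prop
  refine le_trans (measure_mono ?_) ((meas_ge_le_lintegral_div hm.aemeasurable
    (ε := ((n + 1 : ℕ) : ℝ≥0∞)) (by simp) (by simp)).trans
    ((ENNReal.div_le_div_right (hS P hP) _).trans hn))
  intro u hu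
  simp only [Set.mem_compl_iff, mem_closedBall_zero_iff, not_le] at hu
  simp only [Set.mem_ofPred_eq]
  rw [← ENNReal.ofReal_natCast]
  refine ENNReal.ofReal_le_ofReal ?_
  have h1 : (1 : ℝ) ≤ ((n + 1 : ℕ) : ℝ) := by exact_mod_cast Nat.succ_le_succ (Nat.zero_le n)
  rw [Prod.norm_def, Prod.norm_def, lt_max_iff, lt_max_iff, Real.norm_eq_abs, Real.norm_eq_abs,
    Real.norm_eq_abs] at hu
  unfold nsq
  rcases hu with hu | hu | hu
  · nlinarith [sq_abs u.1, sq_nonneg u.2.1, sq_nonneg u.2.2]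
  · nlinarith [sq_abs u.2.1, sq_nonneg u.1, sq_nonneg u.2.2]
  · nlinarith [sq_abs u.2.2, sq_nonneg u.1, sq_nonneg u.2.1]

lemma qd_moment {s : ℝ≥0} (h0 : s ≠ 0) (P : Measure T3) [IsProbabilityMeasure P] :
    ∫⁻ w, ENNReal.ofReal (qd s P w) * ENNReal.ofReal (nsq w) =
      ∫⁻ u, ENNReal.ofReal (nsq u) ∂P + ENNReal.ofReal (3 * s) := by
  rw [← smooth_eq h0 P (fun w => ENNReal.ofReal (nsq w)) (by fun_prop)]
  have : ∀ z : T3, ∫⁻ ζ, ENNReal.ofReal (nsq (z + ζ)) ∂(N3 s s s) =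
      ENNReal.ofReal (nsq z) + ENNReal.ofReal (3 * s) := by
    intro z
    rw [N3_eq_G3, mom3, add_zero, ENNReal.ofReal_add (nsq_nonneg z) (by positivity)]
  simp only [this]
  rw [lintegral_add_right _ measurable_const]
  simp

lemma frame_eq {R : T3 ≃ₗ[ℝ] T3} (hR : Orth R) {s : ℝ≥0}
    {Ps : ℕ → ProbabilityMeasure T3} {P : ProbabilityMeasure T3}
    (h : Tendsto Ps atTop (𝓝 P)) (δ : ℕ → ℝ) (hδ : Tendsto δ atTop (𝓝 0))
    (hD : ∀ n, Dep ((Ps n : Measure T3).map R.symm) (δ n)) (w : T3) (a : ℝ) (n : T3)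
    (hn : dot n (R (1, 0, 0)) = 0) :
    qd s P (w + a • R (1, 0, 0) + n) * qd s P w =
      qd s P (w + a • R (1, 0, 0)) * qd s P (w + n) := by
  have h' := ProbabilityMeasure.tendsto_map_of_tendsto_of_continuous Ps P h
    (continuous_lin R.symm)
  have R2 := rank_one h' s δ hδ (fun n => by simpa using hD n)
    ((R.symm w).1 + a) ((R.symm w).2 + (R.symm n).2) (R.symm w).1 (R.symm w).2
  simp only [ProbabilityMeasure.toMeasure_map, qd_rot hR] at R2
  have n1 : (R.symm n).1 = 0 := by rw [hR.symm_fst, hn]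
  have e1 : (((R.symm w).1 + a, (R.symm w).2 + (R.symm n).2) : T3) =
      R.symm w + a • ((1, 0, 0) : T3) + R.symm n := by
    refine Prod.ext (by simp [n1]) (Prod.ext (by simp) (by simp))
  have e2 : (((R.symm w).1 + a, (R.symm w).2) : T3) = R.symm w + a • ((1, 0, 0) : T3) := by
    refine Prod.ext (by simp) (Prod.ext (by simp) (by simp))
  have e3 : (((R.symm w).1, (R.symm w).2 + (R.symm n).2) : T3) = R.symm w + R.symm n := by
    refine Prod.ext (by simp [n1]) (Prod.ext (by simp) (by simp))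
  rw [e1, e2, e3] at R2
  simpa only [map_add, map_smul, Prod.mk.eta, LinearEquiv.apply_symm_apply] using R2

lemma limit_gauss {R₂ R₃ : T3 ≃ₗ[ℝ] T3} (hG : Gen R₂ R₃) {s : ℝ≥0}
    (h0 : s ≠ 0) {Ps : ℕ → ProbabilityMeasure T3} {P : ProbabilityMeasure T3}
    (h : Tendsto Ps atTop (𝓝 P)) (δ : ℕ → ℝ) (hδ : Tendsto δ atTop (𝓝 0))
    (hD : ∀ n, Dep (Ps n) (δ n))
    (hD₂ : ∀ n, Dep ((Ps n : Measure T3).map R₂.symm) (δ n))
    (hD₃ : ∀ n, Dep ((Ps n : Measure T3).map R₃.symm) (δ n)) :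
    ∃ (m : T3) (v : ℝ≥0), v ≠ 0 ∧ ∀ w, qd s P w = ker v (w - m) := by
  have hpos : ∀ w, 0 < qd s P w := qd_pos h0 P
  obtain ⟨A, β, γ, hL⟩ := func_eq (R₂ (1, 0, 0)) (R₃ (1, 0, 0)) hG.c₂ hG.c₃ hG.det
    (fun w => Real.log (qd s P w)) ((qd_cont h0 P).log fun w => (hpos w).ne') (by
      intro x p x' p'
      rw [← Real.log_mul (hpos _).ne' (hpos _).ne', ← Real.log_mul (hpos _).ne' (hpos _).ne',
        rank_one h s δ hδ hD]) (by
      intro w a n hn
      rw [← Real.log_mul (hpos _).ne' (hpos _).ne', ← Real.log_mul (hpos _).ne' (hpos _).ne',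
        frame_eq hG.o₂ h δ hδ hD₂ w a n hn]) (by
      intro w a n hn
      rw [← Real.log_mul (hpos _).ne' (hpos _).ne', ← Real.log_mul (hpos _).ne' (hpos _).ne',
        frame_eq hG.o₃ h δ hδ hD₃ w a n hn])
  exact gauss_of_exp (qd s P) A β γ (fun w => by rw [← hL, Real.exp_log (hpos _)])
    (qd_cont h0 P).measurable (qd_mass h0 P)

lemma rigid_one {R₂ R₃ : T3 ≃ₗ[ℝ] T3} (hG : Gen R₂ R₃) (M₀ : ℝ≥0)
    {s₀ : ℝ≥0} (h0 : s₀ ≠ 0) (h1 : s₀ ≤ 1) {η : ℝ≥0} (hη : η ≠ 0) :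
    ∃ δ : ℝ, 0 < δ ∧ ∀ P : ProbabilityMeasure T3,
      ∫⁻ u, ENNReal.ofReal (nsq u) ∂(P : Measure T3) ≤ M₀ →
      Dep P δ → Dep ((P : Measure T3).map R₂.symm) δ → Dep ((P : Measure T3).map R₃.symm) δ →
      ∃ (m : T3) (v : ℝ≥0), v ≠ 0 ∧ nsq m ≤ 2 * M₀ + 4 ∧
        ∀ φ : T3 → ℝ≥0∞, Measurable φ → (∀ u, φ u ≤ 1) →
          ∫⁻ z, ∫⁻ ζ, φ (z + ζ) ∂(N3 s₀ s₀ s₀) ∂(P : Measure T3) ≤
            ∫⁻ u, φ u ∂G3 m v v v + η := by
  by_contra H
  push Not at H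
  choose Ps hM hD hD₂ hD₃ hbad using fun n : ℕ => H (1 / ((n : ℝ) + 1)) Nat.one_div_pos_of_nat
  have hcomp := isCompact_closure_of_isTightMeasureSet (tight M₀ (Set.range Ps) (by
    rintro _ ⟨n, rfl⟩
    exact hM n))
  obtain ⟨P, -, ψ, hψ, hlim⟩ := hcomp.tendsto_subseq (x := Ps)
    fun n => subset_closure (Set.mem_range_self n)
  obtain ⟨m, v, hv, hq⟩ := limit_gauss hG h0 hlim (fun n => 1 / ((ψ n : ℝ) + 1))
    (tendsto_one_div_add_atTop_nhds_zero_nat.comp hψ.tendsto_atTop) (fun n => hD (ψ n))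
    (fun n => hD₂ (ψ n)) (fun n => hD₃ (ψ n))
  set Qn : ℕ → T3 → ℝ≥0∞ := fun n w => ENNReal.ofReal (qd s₀ (Ps (ψ n)) w) with hQn
  set Q : T3 → ℝ≥0∞ := fun w => ENNReal.ofReal (qd s₀ P w) with hQ
  have mQn : ∀ n, Measurable (Qn n) := fun n => (qd_cont h0 _).measurable.ennreal_ofReal
  have mQ : Measurable Q := (qd_cont h0 _).measurable.ennreal_ofReal
  have lim : ∀ w, Tendsto (fun n => Qn n w) atTop (𝓝 (Q w)) := fun w =>
    ENNReal.tendsto_ofReal (tendsto_qd hlim h0 w)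
  have hGQ : ∀ {f : T3 → ℝ≥0∞}, Measurable f → ∫⁻ u, f u ∂G3 m v v v = ∫⁻ u, Q u * f u := by
    intro f hf
    rw [lintegral_G3 m hv hv hv hf]
    simp only [hQ, hq, pdf3_ker m hv]
  have mr : Measurable fun w : T3 => ENNReal.ofReal (nsq w) := by fun_prop
  have hm : nsq m ≤ 2 * M₀ + 4 := by
    have e1 := mom3 0 m v
    simp only [zero_add] at e1
    rw [hGQ mr] at e1
    have e2 : ∀ w : T3, Q w * ENNReal.ofReal (nsq w) =
        liminf (fun n => Qn n w * ENNReal.ofReal (nsq w)) atTop := fun w =>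
      (ENNReal.Tendsto.mul_const (lim w) (Or.inr ENNReal.ofReal_ne_top)).liminf_eq.symm
    simp only [e2] at e1
    have e3 := lintegral_liminf_le (μ := (volume : Measure T3)) (u := atTop)
      (f := fun n w => Qn n w * ENNReal.ofReal (nsq w)) fun n => (mQn n).mul mr
    rw [e1] at e3
    have e4 : ENNReal.ofReal (nsq m + 3 * v) ≤ ENNReal.ofReal (M₀ + 3 * s₀) := by
      refine e3.trans (liminf_le_of_frequently_le' (Frequently.of_forall fun n => ?_))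
      simp only [hQn]
      rw [qd_moment h0, ENNReal.ofReal_add (by positivity) (by positivity),
        ENNReal.ofReal_coe_nnreal]
      exact add_le_add (hM _) le_rfl
    have e5 := (ENNReal.ofReal_le_ofReal_iff (by positivity)).1 e4
    have e6 : (s₀ : ℝ) ≤ 1 := h1
    have e7 : (0 : ℝ) ≤ v := v.2
    have e8 : (0 : ℝ) ≤ M₀ := M₀.2
    linarith
  have hS := scheffe Qn Q mQn mQ (fun n => qd_mass h0 _) (qd_mass h0 _)
    (fun _ => ENNReal.ofReal_ne_top) lim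
  obtain ⟨n, hn⟩ := (hS.eventually (ge_mem_nhds (show (0 : ℝ≥0∞) < η by
    simpa [pos_iff_ne_zero] using hη))).exists
  obtain ⟨φ, hφ, hφ1, hlt⟩ := hbad (ψ n) m v hv hm
  refine absurd hlt (not_lt.2 ?_)
  rw [smooth_eq h0 _ φ hφ, hGQ hφ]
  refine le_trans ?_ (add_le_add le_rfl hn)
  rw [← lintegral_add_left (show Measurable fun u => Q u * φ u from mQ.mul hφ)]
  refine lintegral_mono fun w => ?_
  calc Qn n w * φ w ≤ (Q w + (Qn n w - Q w)) * φ w := by gcongr; exact le_add_tsub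
    _ = Q w * φ w + (Qn n w - Q w) * φ w := add_mul _ _ _
    _ ≤ Q w * φ w + (Qn n w - Q w) := add_le_add le_rfl (mul_le_of_le_one_right' (hφ1 w))

lemma dil_meas (r : ℝ) : Measurable fun u : T3 => r • u := measurable_const_smul r

lemma dep_dil {P : Measure T3} {δ : ℝ} (h : Dep P δ) (r : ℝ) :
    Dep (P.map fun u => r • u) δ := by
  intro g₁ g₂ m₁ m₂ b₁ b₂
  have a1 : Measurable fun u : T3 => g₁ u.1 := m₁.comp measurable_fst
  have a2 : Measurable fun u : T3 => g₂ u.2 := m₂.comp measurable_snd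
  have a3 : Measurable fun u : T3 => g₁ u.1 * g₂ u.2 := a1.mul a2
  rw [integral_map (dil_meas r).aemeasurable a1.aestronglyMeasurable,
    integral_map (dil_meas r).aemeasurable a2.aestronglyMeasurable,
    integral_map (dil_meas r).aemeasurable a3.aestronglyMeasurable]
  exact h (fun x => g₁ (r • x)) (fun x => g₂ (r • x)) (m₁.comp (measurable_const_smul r))
    (m₂.comp (measurable_const_smul r)) (fun _ => b₁ _) (fun _ => b₂ _)

lemma dep_dil' {P : Measure T3} {δ : ℝ} (R : T3 ≃ₗ[ℝ] T3) (h : Dep (P.map R) δ) (r : ℝ) :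
    Dep ((P.map fun u => r • u).map R) δ := by
  have := dep_dil h r
  rw [Measure.map_map (dil_meas r) (measurable_lin R)] at this
  rw [Measure.map_map (measurable_lin R) (dil_meas r)]
  have e : (R : T3 → T3) ∘ (fun u => r • u) = (fun u => r • u) ∘ R := by
    funext u
    simp
  rw [e]
  exact this

lemma gauss_dil (σ : ℝ≥0) (m : T3) (v : ℝ≥0) :
    (G3 m v v v).map (fun u => √(σ : ℝ) • u) = G3 (√(σ : ℝ) • m) (σ * v) (σ * v) (σ * v) := by
  have e : (gaussianReal m.1 v).map (√σ * ·) = gaussianReal (√σ * m.1) (σ * v) := by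
    rw [gaussianReal_map_const_mul]
    refine congrArg (fun t => gaussianReal (√σ * m.1) (t * v)) ?_
    ext
    simp
  have e2 := H50.gauss_dil σ m.2.1 m.2.2 v
  have e3 : G3 (√(σ : ℝ) • m) (σ * v) (σ * v) (σ * v) = (gaussianReal (√σ * m.1) (σ * v)).prod
      ((gaussianReal (√σ * m.2.1) (σ * v)).prod (gaussianReal (√σ * m.2.2) (σ * v))) := rfl
  rw [e3, ← e, ← e2, Measure.map_prod_map _ _ (measurable_const_mul _) (H50.dil_meas _)]
  rfl

lemma nsq_smul (r : ℝ) (u : T3) : nsq (r • u) = r ^ 2 * nsq u := by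
  simp only [nsq, Prod.smul_fst, Prod.smul_snd, smul_eq_mul]
  ring

theorem rigid : RigidStmt := by
  intro R₂ R₃ hG M₀ s₀ h0 h1 η hη
  obtain ⟨δ, hδ, H⟩ := rigid_one hG M₀ h0 h1 hη
  refine ⟨δ, hδ, fun σ hσ P _ hM hD hD₂ hD₃ => ?_⟩
  have hσ' : (0 : ℝ) < σ := by positivity
  have hr : 0 < √(σ : ℝ) := Real.sqrt_pos.2 hσ'
  have hr2 : √(σ : ℝ) ^ 2 = σ := Real.sq_sqrt hσ'.le
  have : IsProbabilityMeasure (P.map fun u => (√(σ : ℝ))⁻¹ • u) :=
    Measure.isProbabilityMeasure_map (dil_meas _).aemeasurable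
  have mr : Measurable fun w : T3 => ENNReal.ofReal (nsq w) := by fun_prop
  obtain ⟨m, v, hv, hm, hφ⟩ := H ⟨P.map fun u => (√(σ : ℝ))⁻¹ • u, inferInstance⟩ (by
      change ∫⁻ u, ENNReal.ofReal (nsq u) ∂(P.map fun u => (√(σ : ℝ))⁻¹ • u) ≤ M₀
      rw [lintegral_map mr (dil_meas _)]
      have : ∀ u : T3, ENNReal.ofReal (nsq ((√(σ : ℝ))⁻¹ • u)) =
          ((σ⁻¹ : ℝ≥0) : ℝ≥0∞) * ENNReal.ofReal (nsq u) := by
        intro u
        rw [← ENNReal.ofReal_coe_nnreal, ← ENNReal.ofReal_mul (NNReal.coe_nonneg _), nsq_smul,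
          inv_pow, hr2, NNReal.coe_inv]
      simp only [this]
      rw [lintegral_const_mul _ mr]
      refine (mul_le_mul_right hM _).trans ?_
      rw [← ENNReal.coe_mul, ENNReal.coe_le_coe, mul_comm M₀, ← mul_assoc, inv_mul_cancel₀ hσ,
        one_mul])
    (dep_dil hD _) (dep_dil' _ hD₂ _) (dep_dil' _ hD₃ _)
  refine ⟨√(σ : ℝ) • m, σ * v, mul_ne_zero hσ hv, ?_, fun φ mφ bφ => ?_⟩
  · rw [nsq_smul, hr2]
    nlinarith
  · have mφ' : Measurable fun u : T3 => φ (√(σ : ℝ) • u) := mφ.comp (dil_meas _)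
    have h2 := hφ (fun u => φ (√(σ : ℝ) • u)) mφ' fun _ => bφ _
    change ∫⁻ z, ∫⁻ ζ, φ (√(σ : ℝ) • (z + ζ)) ∂(N3 s₀ s₀ s₀)
      ∂(P.map fun u => (√(σ : ℝ))⁻¹ • u) ≤ _ at h2
    have mI : Measurable fun z : T3 => ∫⁻ ζ, φ (√(σ : ℝ) • (z + ζ)) ∂(N3 s₀ s₀ s₀) :=
      Measurable.lintegral_prod_right (f := fun z ζ => φ (√(σ : ℝ) • (z + ζ)))
        (mφ'.comp measurable_add)
    rw [lintegral_map mI (dil_meas _), ← lintegral_map mφ (dil_meas _), gauss_dil] at h2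
    refine le_trans (le_of_eq ?_) h2
    refine lintegral_congr fun z => ?_
    have e : N3 (σ * s₀) (σ * s₀) (σ * s₀) = (N3 s₀ s₀ s₀).map fun u => √(σ : ℝ) • u := by
      rw [N3_eq_G3, N3_eq_G3, gauss_dil, smul_zero]
    rw [e, lintegral_map (show Measurable fun ζ => φ (z + ζ) from
      mφ.comp (measurable_const_add z)) (dil_meas _)]
    refine lintegral_congr fun ζ => ?_
    rw [smul_add, smul_inv_smul₀ hr.ne']

end Pool.Agent.MP_2b113a_an.H58
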