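import Pool.Agent.MP_2b113a_an.C3.Iface
import Pool.Agent.MP_2b113a_an.H50.Rigid

/-!
First part of the stable Bernstein theorem in three frames: the functional equation and the
smoothed densities.
-/

namespace Pool.Agent.MP_2b113a_an.H58

open MeasureTheory ProbabilityTheory Filter Topology
open scoped ENNReal NNReal
open Pool.Agent.MP_2b113a_an.C3

lemma func_eq (e f : T3) (ce : e.1 ≠ 0) (cf : f.1 ≠ 0)
    (hd : e.2.1 * f.2.2 - e.2.2 * f.2.1 ≠ 0) (L : T3 → ℝ) (hL : Continuous L)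
    (H1 : ∀ (x : ℝ) (p : ℝ × ℝ) (x' : ℝ) (p' : ℝ × ℝ),
      L (x, p) + L (x', p') = L (x, p') + L (x', p))
    (H2 : ∀ (w : T3) (a : ℝ) (n : T3), dot n e = 0 →
      L (w + a • e + n) + L w = L (w + a • e) + L (w + n))
    (H3 : ∀ (w : T3) (a : ℝ) (n : T3), dot n f = 0 →
      L (w + a • f + n) + L w = L (w + a • f) + L (w + n)) :
    ∃ (A : ℝ) (β : T3) (γ : ℝ), ∀ w, L w = A * nsq w + dot β w + γ := by
  set u : ℝ → ℝ := fun x => L (x, 0) with hu
  set v : ℝ × ℝ → ℝ := fun p => L (0, p) - L (0, 0) with hv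
  have hsum : ∀ w : T3, L w = u w.1 + v w.2 := by
    rintro ⟨x, p⟩
    have := H1 x p 0 0
    simp only [hu, hv]
    linarith
  have key : ∀ g : T3, (∀ (w : T3) (a : ℝ) (n : T3), dot n g = 0 →
      L (w + a • g + n) + L w = L (w + a • g) + L (w + n)) →
      ∀ (x : ℝ) (p : ℝ × ℝ) (a t : ℝ) (q : ℝ × ℝ), t * g.1 + q.1 * g.2.1 + q.2 * g.2.2 = 0 →
        u (x + a * g.1 + t) + u x - u (x + a * g.1) - u (x + t) =
          -(v (p + a • g.2 + q) + v p - v (p + a • g.2) - v (p + q)) := by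
    intro g H x p a t q h
    have := H (x, p) a (t, q) h
    simp only [hsum, Prod.fst_add, Prod.snd_add, Prod.smul_fst, Prod.smul_snd, smul_eq_mul] at this
    linarith
  have hne : e.2.1 ^ 2 + e.2.2 ^ 2 ≠ 0 := by
    intro h
    have h1 : e.2.1 = 0 := by nlinarith [sq_nonneg e.2.1, sq_nonneg e.2.2]
    have h2 : e.2.2 = 0 := by nlinarith [sq_nonneg e.2.1, sq_nonneg e.2.2]
    exact hd (by rw [h1, h2]; ring)
  obtain ⟨A, β₁, hA⟩ := H50.quad u (by simp only [hu]; fun_prop) (by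
    intro x a b
    have h0 : b * e.1 + (-(b * e.1 / (e.2.1 ^ 2 + e.2.2 ^ 2)) * e.2.1) * e.2.1 +
        (-(b * e.1 / (e.2.1 ^ 2 + e.2.2 ^ 2)) * e.2.2) * e.2.2 = 0 := by
      field_simp
      ring
    have h1 := key e H2 x 0 (a / e.1) b (_, _) h0
    have h2 := key e H2 0 0 (a / e.1) b (_, _) h0
    rw [div_mul_cancel₀ a ce] at h1 h2
    rw [h1, ← h2]; simp)
  set v' : ℝ × ℝ → ℝ := fun p => v p - A * (p.1 ^ 2 + p.2 ^ 2) with hv'
  have key' : ∀ g : T3, g.1 ≠ 0 → (∀ (w : T3) (a : ℝ) (n : T3), dot n g = 0 →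
      L (w + a • g + n) + L w = L (w + a • g) + L (w + n)) →
      ∀ (p : ℝ × ℝ) (a : ℝ) (q : ℝ × ℝ),
        v' (p + a • g.2 + q) - v' (p + a • g.2) = v' (p + q) - v' p := by
    intro g cg H p a q
    have h0 : -((q.1 * g.2.1 + q.2 * g.2.2) / g.1) * g.1 + q.1 * g.2.1 + q.2 * g.2.2 = 0 := by
      field_simp
      ring
    have h1 := key g H 0 p a _ q h0
    generalize -((q.1 * g.2.1 + q.2 * g.2.2) / g.1) = t at h0 h1
    rw [hA (0 + a * g.1 + t), hA (0 + a * g.1), hA (0 + t)] at h1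
    simp only [hv', Prod.fst_add, Prod.snd_add, Prod.smul_fst, Prod.smul_snd, smul_eq_mul]
    linear_combination h1 - 2 * A * a * h0
  have hadd : ∀ h q : ℝ × ℝ, v' (h + q) = v' h + v' q := by
    intro h q
    have h0 : h = 0 + ((h.1 * f.2.2 - h.2 * f.2.1) / (e.2.1 * f.2.2 - e.2.2 * f.2.1)) • e.2 +
        ((e.2.1 * h.2 - e.2.2 * h.1) / (e.2.1 * f.2.2 - e.2.2 * f.2.1)) • f.2 := by
      refine Prod.ext ?_ ?_
      · simp only [Prod.fst_add, Prod.smul_fst, smul_eq_mul, Prod.fst_zero]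
        rw [div_mul_eq_mul_div, div_mul_eq_mul_div, zero_add, ← add_div, eq_div_iff hd]
        ring
      · simp only [Prod.snd_add, Prod.smul_snd, smul_eq_mul, Prod.snd_zero]
        rw [div_mul_eq_mul_div, div_mul_eq_mul_div, zero_add, ← add_div, eq_div_iff hd]
        ring
    have h1 := key' f cf H3 (0 + ((h.1 * f.2.2 - h.2 * f.2.1) /
      (e.2.1 * f.2.2 - e.2.2 * f.2.1)) • e.2)
      ((e.2.1 * h.2 - e.2.2 * h.1) / (e.2.1 * f.2.2 - e.2.2 * f.2.1)) q
    have h2 := key' e ce H2 0 ((h.1 * f.2.2 - h.2 * f.2.1) / (e.2.1 * f.2.2 - e.2.2 * f.2.1)) q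
    rw [← h0, h2, zero_add] at h1
    have h3 : v' 0 = 0 := by simp [hv', hv]
    linarith
  have cv : Continuous v' := by simp only [hv', hv]; fun_prop
  have l1 := H50.add_linear (fun y => v' (y, 0)) (by fun_prop) fun a b => by
    rw [← hadd]; simp
  have l2 := H50.add_linear (fun z => v' (0, z)) (by fun_prop) fun a b => by
    rw [← hadd]; simp
  refine ⟨A, (β₁, v' (1, 0), v' (0, 1)), u 0, ?_⟩
  rintro ⟨x, y, z⟩
  have h1 := hadd (y, 0) (0, z)
  have h2 : v' (y, 0) = y * v' (1, 0) := l1 y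
  have h3 : v' (0, z) = z * v' (0, 1) := l2 z
  have h4 : v' (y, z) = v (y, z) - A * (y ^ 2 + z ^ 2) := rfl
  simp only [Prod.mk_add_mk, add_zero, zero_add] at h1
  rw [hsum]
  simp only [nsq, dot]
  rw [hA x]
  linarith

/-- The round Gaussian kernel. -/
noncomputable def ker (s : ℝ≥0) (ζ : T3) : ℝ := (zz s)⁻¹ * Real.exp (-nsq ζ / (2 * s))

@[fun_prop] lemma ker_cont (s : ℝ≥0) : Continuous (ker s) := by
  unfold ker
  fun_prop

lemma zz_pos' {s : ℝ≥0} (h : s ≠ 0) : 0 < zz s := zz_pos (by positivity)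

lemma ker_pos {s : ℝ≥0} (h : s ≠ 0) (ζ : T3) : 0 < ker s ζ :=
  mul_pos (inv_pos.2 (zz_pos' h)) (Real.exp_pos _)

lemma exp_le_one {s : ℝ≥0} {r : ℝ} (hr : 0 ≤ r) : Real.exp (-r / (2 * s)) ≤ 1 := by
  rw [Real.exp_le_one_iff]
  exact div_nonpos_of_nonpos_of_nonneg (by linarith) (by positivity)

lemma ker_norm_le {s : ℝ≥0} (h : s ≠ 0) (ζ : T3) : ‖ker s ζ‖ ≤ (zz s)⁻¹ := by
  rw [Real.norm_of_nonneg (ker_pos h ζ).le]
  exact mul_le_of_le_one_right (inv_pos.2 (zz_pos' h)).le (exp_le_one (nsq_nonneg ζ))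

lemma pdf3_ker (m : T3) {s : ℝ≥0} (h : s ≠ 0) (u : T3) :
    pdf3 m s s s u = ENNReal.ofReal (ker s (u - m)) := by
  rw [pdf3_iso m h, ker, ENNReal.ofReal_mul (inv_pos.2 (zz_pos' h)).le, bmp]

/-- The density of the smoothed law. -/
noncomputable def qd (s : ℝ≥0) (P : Measure T3) (w : T3) : ℝ := ∫ u, ker s (w - u) ∂P

lemma ker_integrable {s : ℝ≥0} (h : s ≠ 0) (P : Measure T3) [IsFiniteMeasure P] (w : T3) :
    Integrable (fun u => ker s (w - u)) P :=
  Integrable.of_bound ((ker_cont s).comp (continuous_const.sub continuous_id)).aestronglyMeasurable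
    (zz s)⁻¹ (Eventually.of_forall fun _ => ker_norm_le h _)

lemma qd_pos {s : ℝ≥0} (h : s ≠ 0) (P : Measure T3) [IsProbabilityMeasure P] (w : T3) :
    0 < qd s P w := by
  unfold qd
  rw [integral_pos_iff_support_of_nonneg (fun u => (ker_pos h _).le) (ker_integrable h P w)]
  have : Function.support (fun u => ker s (w - u)) = Set.univ := by
    ext u
    simp [(ker_pos h _).ne']
  rw [this]; simp

lemma qd_cont {s : ℝ≥0} (h : s ≠ 0) (P : Measure T3) [IsFiniteMeasure P] :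
    Continuous (qd s P) := by
  unfold qd
  refine continuous_of_dominated (bound := fun _ => (zz s)⁻¹) (fun w => ?_)
    (fun w => Eventually.of_forall fun _ => ker_norm_le h _) (integrable_const _)
    (Eventually.of_forall fun u => ?_)
  · exact (ker_integrable h P w).aestronglyMeasurable
  · exact (ker_cont s).comp (continuous_id.sub continuous_const)

lemma qd_rot {R : T3 ≃ₗ[ℝ] T3} (hR : Orth R) (s : ℝ≥0) (P : Measure T3) (w : T3) :
    qd s (P.map R.symm) w = qd s P (R w) := by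
  unfold qd
  have hm : Continuous fun u => ker s (w - u) :=
    (ker_cont s).comp (continuous_const.sub continuous_id)
  rw [integral_map (measurable_lin R.symm).aemeasurable hm.aestronglyMeasurable]
  refine integral_congr_ae (Eventually.of_forall fun u => ?_)
  show ker s (w - R.symm u) = ker s (R w - u)
  rw [ker, ker, ← hR (w - R.symm u), map_sub, R.apply_symm_apply]

lemma tendsto_int {Ps : ℕ → ProbabilityMeasure T3} {P : ProbabilityMeasure T3}
    (h : Tendsto Ps atTop (𝓝 P)) (f : T3 → ℝ) (hf : Continuous f) (C : ℝ)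
    (hC : ∀ x, ‖f x‖ ≤ C) :
    Tendsto (fun n => ∫ u, f u ∂(Ps n : Measure T3)) atTop (𝓝 (∫ u, f u ∂(P : Measure T3))) :=
  ProbabilityMeasure.tendsto_iff_forall_integral_tendsto.1 h
    (BoundedContinuousFunction.ofNormedAddCommGroup f hf C hC)

lemma tendsto_qd {Ps : ℕ → ProbabilityMeasure T3} {P : ProbabilityMeasure T3}
    (h : Tendsto Ps atTop (𝓝 P)) {s : ℝ≥0} (h0 : s ≠ 0) (w : T3) :
    Tendsto (fun n => qd s (Ps n) w) atTop (𝓝 (qd s P w)) :=
  tendsto_int h _ ((ker_cont s).comp (continuous_const.sub continuous_id)) _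
    fun _ => ker_norm_le h0 _

lemma rank_one {Ps : ℕ → ProbabilityMeasure T3} {P : ProbabilityMeasure T3}
    (h : Tendsto Ps atTop (𝓝 P)) (s : ℝ≥0) (δ : ℕ → ℝ)
    (hδ : Tendsto δ atTop (𝓝 0)) (hD : ∀ n, Dep (Ps n) (δ n)) (x : ℝ) (p : ℝ × ℝ) (x' : ℝ)
    (p' : ℝ × ℝ) :
    qd s P (x, p) * qd s P (x', p') = qd s P (x, p') * qd s P (x', p) := by
  set g : ℝ → ℝ → ℝ := fun x t => Real.exp (-(x - t) ^ 2 / (2 * s)) with hg
  set k : ℝ × ℝ → ℝ × ℝ → ℝ :=
    fun p t => Real.exp (-((p.1 - t.1) ^ 2 + (p.2 - t.2) ^ 2) / (2 * s)) with hk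
  have hgc : ∀ x, Continuous (g x) := fun x => by simp only [hg]; fun_prop
  have hkc : ∀ p, Continuous (k p) := fun p => by simp only [hk]; fun_prop
  have hgb : ∀ x t, 0 ≤ g x t ∧ g x t ≤ 1 := fun x t =>
    ⟨(Real.exp_pos _).le, exp_le_one (sq_nonneg _)⟩
  have hkb : ∀ p t, 0 ≤ k p t ∧ k p t ≤ 1 := fun p t =>
    ⟨(Real.exp_pos _).le, exp_le_one (by positivity)⟩
  have hgn : ∀ x t, ‖g x t‖ ≤ 1 := fun x t => by
    rw [Real.norm_of_nonneg (hgb x t).1]; exact (hgb x t).2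
  have hkn : ∀ p t, ‖k p t‖ ≤ 1 := fun p t => by
    rw [Real.norm_of_nonneg (hkb p t).1]; exact (hkb p t).2
  have prod : ∀ x p, ∫ u, g x u.1 * k p u.2 ∂(P : Measure T3) =
      (∫ u, g x u.1 ∂(P : Measure T3)) * ∫ u, k p u.2 ∂(P : Measure T3) := by
    intro x p
    have t1 := tendsto_int h (fun u => g x u.1 * k p u.2)
      (((hgc x).comp continuous_fst).mul ((hkc p).comp continuous_snd)) 1 (fun u => by
        rw [norm_mul]
        exact mul_le_one₀ (hgn _ _) (norm_nonneg _) (hkn _ _))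
    have t2 := tendsto_int h (fun u => g x u.1) ((hgc x).comp continuous_fst) 1
      (fun u => hgn _ _)
    have t3 := tendsto_int h (fun u => k p u.2) ((hkc p).comp continuous_snd) 1
      (fun u => hkn _ _)
    have t4 := (t1.sub (t2.mul t3)).abs
    have := le_of_tendsto_of_tendsto' t4 hδ fun n =>
      hD n (g x) (k p) (hgc x).measurable (hkc p).measurable (hgb x) (hkb p)
    exact sub_eq_zero.1 (abs_nonpos_iff.1 this)
  have hq : ∀ x p, qd s P (x, p) = (zz s)⁻¹ *
      ((∫ u, g x u.1 ∂(P : Measure T3)) * ∫ u, k p u.2 ∂(P : Measure T3)) := by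
    intro x p
    rw [← prod, ← integral_const_mul]
    refine integral_congr_ae (Eventually.of_forall fun u => ?_)
    show ker s ((x, p) - u) = (zz s)⁻¹ * (g x u.1 * k p u.2)
    have : -nsq ((x, p) - u) / (2 * s) = -(x - u.1) ^ 2 / (2 * s) +
        -((p.1 - u.2.1) ^ 2 + (p.2 - u.2.2) ^ 2) / (2 * s) := by
      simp only [nsq, Prod.fst_sub, Prod.snd_sub]
      ring
    rw [ker, this, Real.exp_add]
  simp only [hq]
  ring

lemma smooth_eq {s : ℝ≥0} (h0 : s ≠ 0) (P : Measure T3) [IsProbabilityMeasure P]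
    (φ : T3 → ℝ≥0∞) (hφ : Measurable φ) :
    ∫⁻ z, ∫⁻ ζ, φ (z + ζ) ∂(N3 s s s) ∂P = ∫⁻ w, ENNReal.ofReal (qd s P w) * φ w := by
  have hk : Measurable fun ζ : T3 => ENNReal.ofReal (ker s ζ) :=
    (ker_cont s).measurable.ennreal_ofReal
  have h1 : ∀ z : T3, ∫⁻ ζ, φ (z + ζ) ∂(N3 s s s) =
      ∫⁻ w, ENNReal.ofReal (ker s (w - z)) * φ w := by
    intro z
    rw [lintegral_N3 h0 h0 h0 (show Measurable fun ζ => φ (z + ζ) from
      hφ.comp (measurable_const_add z)),
      ← lintegral_add_left_eq_self (fun w => ENNReal.ofReal (ker s (w - z)) * φ w) z]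
    refine lintegral_congr fun ζ => ?_
    rw [pdf3_ker 0 h0, sub_zero, add_sub_cancel_left]
  simp only [h1]
  rw [lintegral_lintegral_swap]
  · refine lintegral_congr fun w => ?_
    rw [lintegral_mul_const _ (show Measurable fun z => ENNReal.ofReal (ker s (w - z)) from
      hk.comp (measurable_const.sub measurable_id))]
    unfold qd
    rw [ofReal_integral_eq_lintegral_ofReal (ker_integrable h0 P w)
      (Eventually.of_forall fun _ => (ker_pos h0 _).le)]
  · exact ((hk.comp (measurable_snd.sub measurable_fst)).mul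
      (hφ.comp measurable_snd)).aemeasurable

lemma qd_mass {s : ℝ≥0} (h0 : s ≠ 0) (P : Measure T3) [IsProbabilityMeasure P] :
    ∫⁻ w, ENNReal.ofReal (qd s P w) = 1 := by
  have := smooth_eq h0 P (fun _ => 1) measurable_const
  simpa using this.symm

lemma gauss_of_exp (q : T3 → ℝ) (A : ℝ) (β : T3) (γ : ℝ)
    (hq : ∀ w, q w = Real.exp (A * nsq w + dot β w + γ))
    (hm : Measurable q) (h1 : ∫⁻ w, ENNReal.ofReal (q w) = 1) :
    ∃ (m : T3) (v : ℝ≥0), v ≠ 0 ∧ ∀ w, q w = ker v (w - m) := by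
  have hA : A < 0 := by
    by_contra hA
    have hA' : 0 ≤ A := not_lt.1 hA
    have hle : ∀ w : T3, ENNReal.ofReal (Real.exp γ) ≤
        ENNReal.ofReal (q w) + ENNReal.ofReal (q (-w)) := by
      intro w
      have hxy : 0 ≤ A * nsq w := mul_nonneg hA' (nsq_nonneg w)
      rcases le_total 0 (dot β w) with h | h
      · refine le_add_right (ENNReal.ofReal_le_ofReal ?_)
        rw [hq]
        exact Real.exp_le_exp.2 (by linarith)
      · refine le_add_left (ENNReal.ofReal_le_ofReal ?_)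
        have : dot β (-w) = -dot β w := by
          simp only [dot, Prod.fst_neg, Prod.snd_neg]; ring
        rw [hq, nsq_neg, this]
        exact Real.exp_le_exp.2 (by linarith)
    have h2 := lintegral_mono (μ := (volume : Measure T3)) hle
    rw [lintegral_add_left hm.ennreal_ofReal,
      lintegral_neg_eq_self (fun w => ENNReal.ofReal (q w)), h1, lintegral_const] at h2
    have h3 : (volume : Measure T3) Set.univ = ∞ := by
      rw [Measure.volume_eq_prod, ← Set.univ_prod_univ, Measure.prod_prod,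
        Measure.volume_eq_prod, ← Set.univ_prod_univ, Measure.prod_prod]
      simp
    rw [h3, ENNReal.mul_top (by simp [Real.exp_pos])] at h2
    simp at h2
  have hv : 0 < -1 / (2 * A) := div_pos_of_neg_of_neg (by norm_num) (by linarith)
  set v : ℝ≥0 := ⟨-1 / (2 * A), hv.le⟩ with hvdef
  have hvc : (v : ℝ) = -1 / (2 * A) := rfl
  have hv0 : v ≠ 0 := by
    intro h
    rw [h] at hvc
    simp only [NNReal.coe_zero] at hvc
    linarith
  set m : T3 := (-β.1 / (2 * A), -β.2.1 / (2 * A), -β.2.2 / (2 * A)) with hmdef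
  have hK := zz_pos' hv0
  set C : ℝ := Real.exp (γ - A * nsq m) * zz v with hC
  have hC0 : 0 ≤ C := by positivity
  have hqC : ∀ w, q w = C * ker v (w - m) := by
    intro w
    have e : A * nsq w + dot β w + γ = γ - A * nsq m + -nsq (w - m) / (2 * v) := by
      simp only [hvc, hmdef, nsq, dot, Prod.fst_sub, Prod.snd_sub]
      have := hA.ne
      field_simp
      ring
    rw [hq, ker, hC, mul_assoc, mul_inv_cancel_left₀ hK.ne', ← Real.exp_add, e]
  have hC1 : C = 1 := by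
    simp only [hqC, ENNReal.ofReal_mul hC0, ← pdf3_ker m hv0] at h1
    rw [lintegral_const_mul _ (measurable_pdf3 m v v v)] at h1
    have h2 : ∫⁻ w : T3, pdf3 m v v v w = 1 := by
      have h3 := lintegral_G3 m hv0 hv0 hv0 (f := fun _ => 1) measurable_const
      simpa using h3.symm
    rw [h2, mul_one] at h1
    exact ENNReal.ofReal_eq_one.1 h1
  exact ⟨m, v, hv0, fun w => by rw [hqC, hC1, one_mul]⟩

end Pool.Agent.MP_2b113a_an.H58
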